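import Mathlib
import Pool.Agent.H.MP_98d06d_al.Main

set_option autoImplicit false

namespace Pool.Agent.Results.MP_98d06d_al.Q1

universe u v

theorem result {G : Type u} [Group G] [PartialOrder G]
    (hG : ∀ a b c : G, a ≤ b → c * a ≤ c * b ∧ a * c ≤ b * c)
    {ι : Type v} (o : ι → LinearOrder G)
    (ho : ∀ i (a b c : G), (o i).le a b → (o i).le (a * c) (b * c))
    (hi : ∀ a b : G, a ≤ b ↔ ∀ i, (o i).le a b) :
    ∃ (H : Type (max u v)) (_ : Group H) (_ : Lattice H),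
      (∀ a b c : H, a ≤ b → c * a ≤ c * b ∧ a * c ≤ b * c) ∧ ∃ ψ : G →* H,
        Function.Injective ψ ∧ (∀ a b, a ≤ b ↔ ψ a ≤ ψ b) ∧
        (∀ (S : Set G) (s : G), IsLUB S s → IsLUB (ψ '' S) (ψ s)) ∧
        ∀ (S : Set G) (s : G), IsGLB S s → IsGLB (ψ '' S) (ψ s) :=
  Pool.Agent.H.MP_98d06d_al.main hG o ho hi

end Pool.Agent.Results.MP_98d06d_al.Q1
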